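import Pool.Agent.Helper6.LR2.Main

/-!
# Almost all graphs of rank `r`, for every order

For `r > 1` and all `n` and `K`, let `m` be the number of connected twin-free graphs of rank `r`
with vertex set `Fin n`, and `b` the number of isomorphism classes of those of them which cannot be
properly coloured with `r ^ (10000 + 600 K)` colours. Then `r ^ (K n) n! b ≤ m`.
-/

namespace Pool.Agent.Results.MP_3bd889_lc.AlmostAllEveryOrder

open Pool.Agent.Helper6.LR

open Classical in
/-- The set on the left is the set of isomorphism classes (as sets of graphs on `Fin n`) of the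
connected twin-free graphs of rank `r` on `Fin n` that are not `r ^ (10000 + 600 K)`-colourable; the
right hand side is the number of connected twin-free graphs of rank `r` on `Fin n`. -/
theorem result (K r n : ℕ) (hr : 1 < r) :
    r ^ (K * n) * (n.factorial * Set.ncard {C : Set (SimpleGraph (Fin n)) |
      ∃ G : SimpleGraph (Fin n), (G.Connected ∧
        (∀ u v : Fin n, u ≠ v → ¬ G.Adj u v → G.neighborSet u ≠ G.neighborSet v) ∧
        (G.adjMatrix ℝ).rank = r) ∧ ¬ G.Colorable (r ^ (10000 + 600 * K)) ∧
        C = {H | Nonempty (G ≃g H)}}) ≤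
      Nat.card {G : SimpleGraph (Fin n) // G.Connected ∧
        (∀ u v : Fin n, u ≠ v → ¬ G.Adj u v → G.neighborSet u ≠ G.neighborSet v) ∧
        (G.adjMatrix ℝ).rank = r} := by
  have h := every_order_strong K r hr n
  have h1 : {C : Set (SimpleGraph (Fin n)) |
      ∃ G : SimpleGraph (Fin n), (G.Connected ∧
        (∀ u v : Fin n, u ≠ v → ¬ G.Adj u v → G.neighborSet u ≠ G.neighborSet v) ∧
        (G.adjMatrix ℝ).rank = r) ∧ ¬ G.Colorable (r ^ (10000 + 600 * K)) ∧
        C = {H | Nonempty (G ≃g H)}} =
      cls n (fun G => InG r ⟨n, G⟩ ∧ r ^ (10000 + 600 * K) < chi ⟨n, G⟩) := by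
    ext C
    constructor
    · rintro ⟨G, h1, h2, h3⟩
      exact ⟨G, ⟨h1, (not_colorable_iff G).mp h2⟩, h3⟩
    · rintro ⟨G, ⟨h1, h2⟩, h3⟩
      exact ⟨G, h1, (not_colorable_iff G).mpr h2, h3⟩
  rw [h1]
  exact h

end Pool.Agent.Results.MP_3bd889_lc.AlmostAllEveryOrder
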