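import Mathlib
import Pool.Agent.Helper25.Comp.Colour
set_option autoImplicit false

namespace Pool.Agent.Results.MP_3bd889_lc.ComposedFunctions

open Pool.Agent.Helper25.Comp

/-- Q1 (the log-rank conjecture in graph form) with exponent `7` for the graphs of all composed
functions whose inner functions are not of XOR type. -/
theorem result : ∃ C : ℝ, 0 < C ∧ ∀ (m : ℕ), 2 ≤ m → ∀ (I : Type) [Fintype I] [DecidableEq I]
    (X Y : I → Type) [∀ i, Fintype (X i)] [∀ i, Fintype (Y i)] (g : ∀ i, X i → Y i → Bool),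
    (∀ i, (Set.range (g i)).ncard ≤ m) →
    (∀ i, (Set.range (fun y x => g i x y)).ncard ≤ m) →
    (∀ i, ¬ ∃ (a : X i → Bool) (b : Y i → Bool), ∀ x y, g i x y = xor (a x) (b y)) →
    ∀ (L : Type) [Fintype L] [SemilatticeInf L] (f : (I → Bool) → L → Bool),
    (∀ z a, f z a = false → ∃ w ≤ a,
      (∃ x : ∀ i, X i, ∀ y : ∀ i, Y i, f (fun i => g i (x i) (y i)) w = false) ∨
      ∃ y : ∀ i, Y i, ∀ x : ∀ i, X i, f (fun i => g i (x i) (y i)) w = false) →
    ∀ [DecidableRel (matrixGraph (compose g f)).Adj],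
    1 < ((matrixGraph (compose g f)).adjMatrix ℝ).rank →
    Real.log ((matrixGraph (compose g f)).chromaticNumber.toNat : ℝ) ≤
      C * Real.log m * Real.log (((matrixGraph (compose g f)).adjMatrix ℝ).rank : ℝ) ^ 7 := by
  refine ⟨9124737 * 3 ^ 8, by norm_num, ?_⟩
  intro m hm I _ _ X Y _ _ g hX hY hg L _ _ f hN _ hr
  have hcol := colouring m (by omega) g hX hY hg f hN hr
  set ρ := ((matrixGraph (compose g f)).adjMatrix ℝ).rank with hρ
  obtain ⟨K, hK⟩ : ∃ K : ℕ, K = 9124737 := ⟨_, rfl⟩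
  rw [← hK] at hcol
  have hKr : (9124737 : ℝ) = K := by rw [hK]; norm_num
  rw [hKr]
  clear hK hKr
  have hχ : (matrixGraph (compose g f)).chromaticNumber.toNat ≤
      2 ^ (K * (Nat.log 2 m + 1) * (Nat.log 2 ρ + 1) ^ 7) := by
    have h1 := hcol.chromaticNumber_le
    exact ENat.toNat_le_of_le_natCast h1
  have hlog2 : (0.69 : ℝ) < Real.log 2 := by
    have := Real.log_two_gt_d9; linarith
  have hlog2' : Real.log 2 < 1 := by
    have := Real.log_two_lt_d9; linarith
  have key : ∀ n : ℕ, 2 ≤ n → 0 < Real.log n ∧ ((Nat.log 2 n + 1 : ℕ) : ℝ) ≤ 3 * Real.log n := by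
    intro n hn
    have hn2 : (2 : ℝ) ≤ n := by exact_mod_cast hn
    have hnpos : (0 : ℝ) < n := by linarith
    have hlogn : Real.log 2 ≤ Real.log n := Real.log_le_log (by norm_num) hn2
    refine ⟨by linarith, ?_⟩
    have h1 : (2 : ℝ) ^ (Nat.log 2 n) ≤ n := by
      have := Nat.pow_log_le_self 2 (show n ≠ 0 by omega)
      exact_mod_cast this
    have h2 : (Nat.log 2 n : ℝ) * Real.log 2 ≤ Real.log n := by
      rw [← Real.log_pow]
      exact Real.log_le_log (by positivity) h1
    have h3 : ((Nat.log 2 n + 1 : ℕ) : ℝ) * Real.log 2 ≤ 2 * Real.log n := by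
      push_cast
      linarith
    have h4 : (0 : ℝ) ≤ ((Nat.log 2 n + 1 : ℕ) : ℝ) := Nat.cast_nonneg _
    have h5 := mul_le_mul_of_nonneg_left hlog2.le h4
    linarith
  obtain ⟨hm1, hm2⟩ := key m hm
  obtain ⟨hρ1, hρ2⟩ := key ρ hr
  by_cases h0 : (matrixGraph (compose g f)).chromaticNumber.toNat = 0
  · rw [h0, Nat.cast_zero, Real.log_zero]
    positivity
  · have hpos : (0 : ℝ) < ((matrixGraph (compose g f)).chromaticNumber.toNat : ℝ) := by
      exact_mod_cast Nat.pos_of_ne_zero h0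
    calc Real.log ((matrixGraph (compose g f)).chromaticNumber.toNat : ℝ)
        ≤ Real.log ((2 : ℝ) ^ (K * (Nat.log 2 m + 1) * (Nat.log 2 ρ + 1) ^ 7)) := by
          apply Real.log_le_log hpos
          exact_mod_cast hχ
      _ = (K * ((Nat.log 2 m + 1 : ℕ) : ℝ) * ((Nat.log 2 ρ + 1 : ℕ) : ℝ) ^ 7) *
            Real.log 2 := by
          rw [Real.log_pow]; push_cast; ring
      _ ≤ (K * (3 * Real.log m) * (3 * Real.log ρ) ^ 7) * 1 := by
          apply mul_le_mul _ hlog2'.le (by linarith) (by positivity)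
          apply mul_le_mul _ (pow_le_pow_left₀ (Nat.cast_nonneg _) hρ2 7) (by positivity)
            (by positivity)
          exact mul_le_mul_of_nonneg_left hm2 (Nat.cast_nonneg _)
      _ = K * 3 ^ 8 * Real.log m * Real.log ρ ^ 7 := by ring

end Pool.Agent.Results.MP_3bd889_lc.ComposedFunctions
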