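import Pool.Agent.Helper6.LR.Graph

/-!
# The graph form of the log-rank conjecture for twin-free graphs of nearly maximal order

A twin-free graph of rank `r` has `O(2 ^ (r / 2))` vertices (Kotlov and Lovász). We show that
`χ(G) ≤ (4 r 2 ^ (r / 2) / n) ^ 122` for every twin-free graph `G` of rank `r > 1` on `n` vertices.
-/

namespace Pool.Agent.Results.MP_3bd889_lc.NearExtremalOrder

open Pool.Agent.Helper6.LR

/-- `χ(G) ≤ (16 r ^ 2 2 ^ r / n ^ 2) ^ 61` for every twin-free graph `G` of rank `r > 1` on `n`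
vertices. -/
theorem result (n : ℕ) (G : SimpleGraph (Fin n)) [DecidableRel G.Adj]
    (hG : ∀ u v : Fin n, u ≠ v → ¬ G.Adj u v → G.neighborSet u ≠ G.neighborSet v)
    (hr : 1 < (G.adjMatrix ℝ).rank) :
    (G.chromaticNumber.toNat : ℝ) ≤
      (16 * ((G.adjMatrix ℝ).rank : ℝ) ^ 2 * 2 ^ (G.adjMatrix ℝ).rank / (n : ℝ) ^ 2) ^ 61 := by
  have hne : Nonempty (Fin n) := by
    by_contra h
    have h0 : n = 0 := by
      by_contra h1
      exact h ⟨⟨0, Nat.pos_of_ne_zero h1⟩⟩
    subst h0
    have h2 := (G.adjMatrix ℝ).rank_le_card_width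
    rw [Fintype.card_fin] at h2
    omega
  have h := chi_bound (G := G) hG hr
  rwa [Fintype.card_fin] at h

end Pool.Agent.Results.MP_3bd889_lc.NearExtremalOrder
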