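import Pool.Agent.Helper25.LRT.RamseyEq
import Pool.Agent.Helper25.LRT.Hered

/-!
# The size of the induced patterns omitted by a graph of rank `r`

Let `G` be a graph of rank `r > 1`.

* Patterns on `k` vertices: if the vertices of `G` are partitioned into `t` parts, each of which
  omits some induced subgraph on `k` vertices, then `log χ(G) ≤ log t + 26 k (log r)²`. So Q1 holds
  for graphs omitting a pattern on `polylog r` vertices.
* Edgeless patterns: up to the factors `8` and `r (4 + log (|S| + 1))`, `χ(G)` is the greatest size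
  of a vertex set `S` whose independent subsets have at most `r (4 + log (|S| + 1))` elements.
* So Q1 is equivalent to a Ramsey statement for all graphs: for some `c > 0`, every graph on
  `n ≥ 1` vertices has an independent set `s` with `(rank G + 1) |s| ≥ exp (c (log n) ^ c)`.
* Q1 for the graphs omitting the edgeless pattern on more than `exp ((log r) ^ γ)` vertices,
  `γ > 0`, is equivalent to Q1; so is the existence of colourings of the large graphs which save
  a factor `exp ((log r) ^ γ)` over the trivial colouring.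
-/

namespace Pool.Agent.Results.MP_3bd889_lc.PatternThreshold

open Pool.Agent.Helper25.LRT

theorem result :
    (∀ (k t n : ℕ) (G : SimpleGraph (Fin n)) [DecidableRel G.Adj] (p : Fin n → Fin t),
      (∀ i : Fin t, ∃ H : SimpleGraph (Fin k), IsEmpty (H ↪g G.induce {v | p v = i})) →
      1 < (G.adjMatrix ℝ).rank →
      Real.log (G.chromaticNumber.toNat : ℝ) ≤
        Real.log t + 26 * k * Real.log ((G.adjMatrix ℝ).rank : ℝ) ^ 2) ∧
    (∀ (n : ℕ) (G : SimpleGraph (Fin n)) [DecidableRel G.Adj], 1 < (G.adjMatrix ℝ).rank →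
      (∃ S : Finset (Fin n), G.chromaticNumber.toNat ≤ 8 * S.card ∧
        ∀ I ⊆ S, G.IsIndepSet I →
          (I.card : ℝ) ≤ (G.adjMatrix ℝ).rank * (4 + Real.log (S.card + 1))) ∧
      ∀ S : Finset (Fin n),
        (∀ I ⊆ S, G.IsIndepSet I →
          (I.card : ℝ) ≤ (G.adjMatrix ℝ).rank * (4 + Real.log (S.card + 1))) →
        (S.card : ℝ) ≤
          (G.adjMatrix ℝ).rank * (4 + Real.log (S.card + 1)) * G.chromaticNumber.toNat) ∧
    (LogRank ↔ RamseyForm) ∧
    (∀ γ : ℝ, 0 < γ → (LogRank ↔ LogRankSmallAlpha γ) ∧ (LogRank ↔ Saving γ)) :=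
  ⟨fun k t n G _ p h hr => Hered.hereditary k t n G p h hr,
    fun _ G _ hr => ⟨sharp_all G hr, fun S hS => card_le_of_indep' G S hS⟩,
    logRank_iff_ramseyForm, fun _ hγ => equivalences hγ⟩

end Pool.Agent.Results.MP_3bd889_lc.PatternThreshold
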